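import Pool.Agent.LE.StmtsC
import Pool.Agent.Helper42_LE.Msd
import Pool.Agent.Helper96_EXP.Cvr

/-!
# INS: on the good event the decay about `a` gives a lower bound for `D` near `a`
-/

set_option autoImplicit false

open MeasureTheory ProbabilityTheory Function Filter

open scoped ENNReal BigOperators Topology

noncomputable section

namespace Pool.Agent.LE.H77C

open Pool.Agent.Anderson Pool.Agent.Loc Pool.Agent.Mob Pool.Agent.Helper54.Bal
  Pool.Agent.Helper96.EXP Pool.Agent.LE.H42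

theorem ins (hdtu : DtuStmt) : InsStmt2 := by
  intro d η κ K hd hη hκ hK hκK
  obtain ⟨L₁, h1⟩ := hdtu d η K hd hη hK
  have hev := Pool.Agent.LE.H96.poly_small d (show 0 < κ / 8 by positivity) 1 (2 * d) one_pos
  obtain ⟨L₂, hL₂⟩ := eventually_atTop.1 hev
  refine ⟨max L₁ L₂, ?_⟩
  intro V N Q₁ ℓ a E hQ hℓ hL hbox hgood hSG x hx y hy hxy
  have hQℓ : 1 ≤ Q₁ * ℓ := Nat.mul_pos hQ hℓ
  have hKL : Q₁ * ℓ ≤ K * Q₁ * ℓ := by
    rw [mul_assoc]
    exact Nat.le_mul_of_pos_left _ (by omega)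
  have hSG' : SG V (Q₁ * ℓ) κ E (a + sm ℓ 0) := by
    have : a + sm ℓ (0 : Site d) = a := by
      funext j
      simp [sm]
    rw [this]
    exact hSG
  have hx7 : x ∈ box a (7 * (K * Q₁ * ℓ)) := by
    rw [mem_box] at hx ⊢
    omega
  have h2 := h1 κ V N Q₁ ℓ a E hQ hℓ (le_trans (le_max_left _ _) hL) hbox hgood 0
    (mem_box.2 (by rw [sd_self]; omega)) hSG' x hx7
  obtain ⟨hdet, hfin, -, -, -, -⟩ := hgood
  have hx12 : x ∈ box a (12 * (K * Q₁ * ℓ)) := by
    rw [mem_box] at hx ⊢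
    omega
  have hy12 : y ∈ box a (12 * (K * Q₁ * ℓ)) := by
    rw [mem_box] at hy ⊢
    omega
  have hA : box x (Q₁ * ℓ) ⊆ box 0 N := by
    intro z hz
    apply hbox
    rw [mem_box] at hz hx ⊢
    have := sd_triangle a x z
    omega
  have hyA : y ∈ box 0 N \ box x (Q₁ * ℓ) := by
    rw [Finset.mem_sdiff]
    refine ⟨hbox hy12, fun hc => ?_⟩
    rw [mem_box] at hc
    omega
  have key := geo_bound (α := Real.exp (-(κ - 12 * η * K) * (Q₁ * ℓ : ℕ)))
    (β := Real.exp (η * ((K * Q₁ : ℕ) * ℓ))) hA hdet h2.1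
    (mem_box.2 (by rw [sd_self]; omega)) hyA (by positivity) (by positivity) (by
      intro b hb b' hb' hne
      have h3 := sd_of_hop hne
      rw [Finset.mem_sdiff] at hb'
      have hb2 := hb'.2
      rw [mem_box] at hb hb2
      have h4 := sd_triangle x b b'
      refine ⟨h2.2 b (by omega), (hfin b' ?_ y hy12).2⟩
      rw [mem_box] at hx ⊢
      have h5 := sd_triangle a x b'
      omega)
  have hne := (hfin x hx12 y hy12).1
  have hcard : ((box x (Q₁ * ℓ)).card : ℝ) = (2 * (Q₁ * ℓ : ℕ) + 1) ^ d := by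
    rw [card_box]
    push_cast
    ring
  have hp := hL₂ (Q₁ * ℓ) (le_trans (le_max_right _ _) hL)
  set L : ℝ := ((Q₁ * ℓ : ℕ) : ℝ) with hLdef
  have hL0 : 0 ≤ L := Nat.cast_nonneg _
  have e1 : ((K * Q₁ : ℕ) : ℝ) * ℓ = K * L := by
    rw [hLdef]
    push_cast
    ring
  have e2 : (Q₁ : ℝ) * ℓ = L := by
    rw [hLdef]
    push_cast
    ring
  rw [hcard, e1] at key
  rw [e2]
  have hfinal : |gr V (box 0 N) E x y| ≤ Real.exp (-(κ / 2 * L)) := by
    refine key.trans ?_
    have e3 : Real.exp (-(κ - 12 * η * K) * L) * (2 * d * (2 * L + 1) ^ d) *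
        Real.exp (η * (K * L)) = (2 * d * (2 * L + 1) ^ d * Real.exp (-(κ / 8) * L)) *
          Real.exp (-(κ - 12 * η * K) * L + η * (K * L) + κ / 8 * L) := by
      have : Real.exp (-(κ / 8) * L) * Real.exp (-(κ - 12 * η * K) * L + η * (K * L) + κ / 8 * L)
          = Real.exp (-(κ - 12 * η * K) * L) * Real.exp (η * (K * L)) := by
        rw [← Real.exp_add, ← Real.exp_add]
        ring_nf
      calc _ = (2 * d * (2 * L + 1) ^ d) * (Real.exp (-(κ - 12 * η * K) * L) *
            Real.exp (η * (K * L))) := by ring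
        _ = (2 * d * (2 * L + 1) ^ d) * (Real.exp (-(κ / 8) * L) *
            Real.exp (-(κ - 12 * η * K) * L + η * (K * L) + κ / 8 * L)) := by rw [this]
        _ = _ := by ring
    rw [e3]
    calc _ ≤ 1 * Real.exp (-(κ - 12 * η * K) * L + η * (K * L) + κ / 8 * L) := by
          gcongr
      _ ≤ Real.exp (-(κ / 2 * L)) := by
          rw [one_mul]
          apply Real.exp_le_exp.2
          have h6 : 0 ≤ η * K * L := by positivity
          have h7 : 48 * η * K * L ≤ κ * L := mul_le_mul_of_nonneg_right hκK hL0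
          have h8 : 0 ≤ κ * L := by positivity
          nlinarith
  unfold DL
  have h9 : Real.log |gr V (box 0 N) E x y| ≤ -(κ / 2 * L) := by
    rw [← Real.log_exp (-(κ / 2 * L))]
    exact Real.log_le_log (abs_pos.2 hne) hfinal
  linarith

end Pool.Agent.LE.H77C
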